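import Pool.Agent.Helper16.SD.GoalsN
import Pool.Agent.Helper62.SD.AMOV

/-! # Packet SD-N_MOV (MP_fc6b1e_nt): `NC` is inherited -/

set_option autoImplicit false

namespace Pool.Agent.Helper87.SD.N_MOV

open Pool.Agent.Helper16.SD
open Pool.Agent.Helper38.TH (Hat)

theorem t : Pool.Agent.Helper16.SD.N_MOV := by
  intro p _ K _ _ ιinf η om u hC χ hχ
  obtain ⟨g, g', hg', hne⟩ := hχ
  have hcyc : cyc p g' = cyc p g := Pool.Agent.Helper62.SD.cyc_eq ιinf g g' hg'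
  obtain ⟨hom, hu⟩ := Pool.Agent.Helper62.SD.om_u_eq hC g g' hcyc
  refine ⟨fun θ hθ => ⟨g, g', hg', fun h => ?_⟩, fun ν hν => ⟨g, g', hg', fun h => ?_⟩⟩
  · obtain ⟨n, a, rfl⟩ := hθ
    rw [MonoidHom.mul_apply, MonoidHom.mul_apply, MonoidHom.pow_apply, MonoidHom.pow_apply,
      Pool.Agent.Helper62.SD.eta_eq hC g g' hu n] at h
    exact hne (mul_right_cancel h)
  · have h1 := hν g'
    rw [hom, ← hν g, h] at h1
    exact hne (Units.ext (mul_right_cancel₀ (Units.ne_zero _) h1))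

end Pool.Agent.Helper87.SD.N_MOV
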